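import Pool.Graph.R_pool_sql_team_39128cda.H.MP_e721cf_gt.B

/-!
# Piecewise isometric injections between bounded subsets of the hyperbolic plane

`EmbP p q S`: there is an injection between the two index sets which moves the points of `ℍ` by
isometries from the finite set `S`.  We show that any two bounded sets with nonempty interior embed
in each other, so that they are equidecomposable, and transport a free action.
-/

set_option autoImplicit false

open UpperHalfPlane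
open scoped MatrixGroups

namespace Pool.Agent.KS6_46.HP

/-- isometries of the hyperbolic plane -/
abbrev Iso : Type := ℍ ≃ᵢ ℍ

/-- a bounded set with nonempty interior and a fourfold piecewise isometric injection of it into
itself that increases a rank -/
theorem base : ∃ (X : Set ℍ) (C : X → Fin 2 × Bool → X) (d : X → ℕ) (S : Set Iso),
    S.Finite ∧ Bornology.IsBounded X ∧ (interior X).Nonempty ∧ (∀ x s, d x < d (C x s)) ∧
    (∀ x s y t, C x s = C y t → x = y ∧ s = t) ∧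
    ∀ x s, ∃ g ∈ S, (C x s : ℍ) = g x := by
  open H.MP_e721cf_gt ModularGroup in
  classical
  obtain ⟨Z, c, d, S, hS, z1, z2, z3, z4⟩ := tree
  obtain ⟨τ, ht, τ0, τ1⟩ : ∃ τ : ℝ, ¬ IsAlgebraic ℚ (τ : ℂ) ∧ 0 < τ ∧ τ < 1 / 4 :=
    (Set.Countable.dense_compl ℝ ((Algebraic.countable ℚ ℂ).preimage_of_injOn
      Complex.ofReal_injective.injOn)).exists_between (by norm_num)
  let B : Set ℍ := {z | |z.re| < 1 / 4 ∧ 2 < z.im ∧ z.im < 3}
  have fo : ∀ z : ℍ, |z.re| < 1 / 2 → 2 < z.im → z ∈ fdo := fun z h1 h2 => ⟨by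
    rw [Complex.normSq_apply, coe_re, coe_im]; nlinarith [mul_self_nonneg z.re], h1⟩
  let T : ℍ ≃ᵢ ℍ := ⟨AddAction.toPerm τ, isometry_real_vadd τ⟩
  have hT : ∀ x ∈ Z ∪ B, x ∉ Z → T x ∈ Z := fun x hx h => by
    obtain ⟨b1, b2, b3⟩ := hx.resolve_left h
    have e : T x = τ +ᵥ x := rfl
    rw [e]
    refine z2 _ (fo _ ?_ (by rwa [vadd_im])) (by rw [vadd_im]; linarith) fun ha => h
      (z2 _ (fo _ (by linarith) b2) (by linarith) fun hb => ht ?_)
    · rw [vadd_re, abs_lt]; constructor <;> linarith [abs_lt.1 b1]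
    · rw [coe_vadd] at ha
      simpa using ha.sub hb
  let π : ↥(Z ∪ B) → ℍ := fun x => if x.1 ∈ Z then x else T x
  have hπ : ∀ x, π x ∈ Z := fun x => by
    by_cases h : x.1 ∈ Z
    · simpa only [π, if_pos h] using h
    · simpa only [π, if_neg h] using hT _ x.2 h
  obtain ⟨e⟩ : Nonempty ((Fin 2 × Bool) × Bool ↪ Fin 10) :=
    Function.Embedding.nonempty_of_card_le (by simp)
  let C : ↥(Z ∪ B) → Fin 2 × Bool → ↥(Z ∪ B) := fun x s =>
    ⟨c (π x) (e (s, decide (x.1 ∈ Z))), .inl (z3 _ (hπ x) _).1⟩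
  have hC : ∀ x s, ∃ g ∈ S ∪ (fun g => T.trans g) '' S, (C x s : ℍ) = g x := fun x s => by
    obtain ⟨g, hg, h⟩ := (z3 _ (hπ x) (e (s, decide (x.1 ∈ Z)))).2.2
    by_cases hx : x.1 ∈ Z
    · exact ⟨g, .inl hg, h.trans (by simp only [π, if_pos hx])⟩
    · exact ⟨_, .inr ⟨g, hg, rfl⟩, h.trans (by simp only [π, if_neg hx]; rfl)⟩
  let x0 : ℍ := ⟨⟨0, 5 / 2⟩, by norm_num⟩
  have hx0 : x0 ∈ B := ⟨by simp [x0, ← coe_re], by norm_num [x0, ← coe_im], by norm_num [x0, ← coe_im]⟩
  refine ⟨Z ∪ B, C, fun x => d (π x), S ∪ (fun g => T.trans g) '' S, hS.union (hS.image _),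
    (isCompact_truncatedFundamentalDomain 22).isBounded.subset ?_,
    ⟨x0, interior_maximal Set.subset_union_right ?_ hx0⟩, fun x s => ?_, fun x s y t h => ?_, hC⟩
  · rintro z (h | h)
    · exact z1 z h
    · exact ⟨fdo_subset_fd (fo z (by linarith [h.1]) h.2.1), by linarith [h.2.2]⟩
  · exact (isOpen_lt (continuous_re.abs) continuous_const).inter
      ((isOpen_lt continuous_const continuous_im).inter (isOpen_lt continuous_im continuous_const))
  · have := z3 _ (hπ x) (e (s, decide (x.1 ∈ Z)))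
    simp only [π, C] at this ⊢
    rw [if_pos this.1]; exact this.2.1
  · obtain ⟨a, b⟩ := z4 _ (hπ x) _ (hπ y) _ _ (congrArg Subtype.val h)
    obtain ⟨b1, b2⟩ := Prod.mk.inj (e.injective b)
    refine ⟨Subtype.ext ?_, b1⟩
    rw [decide_eq_decide] at b2
    by_cases hx : x.1 ∈ Z
    · simpa only [π, if_pos hx, if_pos (b2.1 hx)] using a
    · simp only [π, if_neg hx, if_neg (b2.not.1 hx)] at a
      exact T.injective a

/-- piecewise isometric injection of `m` copies of `A` into `n` copies of `B` -/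
def EmbN (A B : Set ℍ) (m n : ℕ) : Prop :=
  ∃ (S : Set Iso) (f : A × Fin m → B × Fin n), S.Finite ∧ Function.Injective f ∧
    ∀ p, ∃ g ∈ S, ((f p).1 : ℍ) = g p.1

/-- products of finite sets of isometries -/
def mulS (S T : Set Iso) : Set Iso := (fun p : Iso × Iso => p.1.trans p.2) '' (S ×ˢ T)

theorem mulS_finite {S T : Set Iso} (hS : S.Finite) (hT : T.Finite) : (mulS S T).Finite :=
  (hS.prod hT).image _

theorem mem_mulS {S T : Set Iso} {g h : Iso} (hg : g ∈ S) (hh : h ∈ T) : g.trans h ∈ mulS S T :=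
  ⟨(g, h), ⟨hg, hh⟩, rfl⟩

theorem EmbN.trans {A B C : Set ℍ} {m n k : ℕ} (h1 : EmbN A B m n) (h2 : EmbN B C n k) :
    EmbN A C m k := by
  obtain ⟨S, f, hS, hf, hfS⟩ := h1
  obtain ⟨T, g, hT, hg, hgT⟩ := h2
  refine ⟨mulS S T, g ∘ f, mulS_finite hS hT, hg.comp hf, fun p => ?_⟩
  obtain ⟨u, hu, hu'⟩ := hfS p
  obtain ⟨v, hv, hv'⟩ := hgT (f p)
  refine ⟨_, mem_mulS hu hv, ?_⟩
  rw [Function.comp_apply, hv', hu']
  rfl

theorem EmbN.mul {A B : Set ℍ} {m n : ℕ} (h : EmbN A B m n) (k : ℕ) :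
    EmbN A B (m * k) (n * k) := by
  obtain ⟨S, f, hS, hf, hfS⟩ := h
  refine ⟨S, fun p => ((f (p.1, (finProdFinEquiv.symm p.2).1)).1,
    finProdFinEquiv ((f (p.1, (finProdFinEquiv.symm p.2).1)).2, (finProdFinEquiv.symm p.2).2)),
    hS, ?_, fun p => hfS _⟩
  rintro ⟨a, i⟩ ⟨b, j⟩ h
  simp only [Prod.mk.injEq, EmbeddingLike.apply_eq_iff_eq] at h
  obtain ⟨h1, h2, h3⟩ := h
  have h4 := hf (Prod.ext h1 h2)
  simp only [Prod.mk.injEq] at h4
  refine Prod.ext h4.1 ?_
  apply finProdFinEquiv.symm.injective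
  exact Prod.ext h4.2 h3

/-- Hall's theorem cancels multiplicities -/
theorem EmbN.cancel {A B : Set ℍ} {m : ℕ} (hm : 0 < m) (h : EmbN A B m m) : EmbN A B 1 1 := by
  classical
  obtain ⟨S, f, hS, hf, hfS⟩ := h
  let t : A → Finset B := fun a =>
    (Set.Finite.preimage (f := fun b : B => (b : ℍ)) Subtype.val_injective.injOn
      (hS.image fun g => g (a : ℍ))).toFinset
  have ht : ∀ p, (f p).1 ∈ t p.1 := fun p => by
    obtain ⟨g, hg, hg'⟩ := hfS p
    simp only [t, Set.Finite.mem_toFinset, Set.mem_preimage, Set.mem_image]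
    exact ⟨g, hg, hg'.symm⟩
  have ht' : ∀ a, ∀ b ∈ t a, ∃ g ∈ S, (b : ℍ) = g a := fun a b hb => by
    simp only [t, Set.Finite.mem_toFinset, Set.mem_preimage, Set.mem_image] at hb
    obtain ⟨g, hg, hg'⟩ := hb
    exact ⟨g, hg, hg'.symm⟩
  obtain ⟨g, hg, hgt⟩ := (Finset.all_card_le_biUnion_card_iff_exists_injective t).1 (fun s => by
    have h1 : (s ×ˢ (Finset.univ : Finset (Fin m))).card ≤
        ((s.biUnion t) ×ˢ (Finset.univ : Finset (Fin m))).card := by
      refine Finset.card_le_card_of_injOn f (fun p hp => ?_) hf.injOn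
      simp only [Finset.coe_product, Finset.coe_univ, Set.mem_prod, Finset.mem_coe,
        Set.mem_univ, and_true, Finset.mem_biUnion] at hp ⊢
      exact ⟨p.1, hp, ht p⟩
    simp only [Finset.card_product, Finset.card_univ, Fintype.card_fin] at h1
    exact Nat.le_of_mul_le_mul_right h1 hm)
  refine ⟨S, fun p => (g p.1, 0), hS, ?_, fun p => ht' _ _ (hgt p.1)⟩
  rintro ⟨a, i⟩ ⟨b, j⟩ h
  simp only [Prod.mk.injEq, and_true] at h
  exact Prod.ext (hg h) (Subsingleton.elim _ _)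

/-- a bounded set is covered by finitely many copies of a set with nonempty interior -/
theorem cover {A B : Set ℍ} (hA : Bornology.IsBounded A) (hB : (interior B).Nonempty) :
    ∃ n, EmbN A B 1 (n + 1) := by
  classical
  obtain ⟨b, hb⟩ := hB
  have htr : ∀ a : ℍ, ∃ g : SL(2, ℝ), g • a = b := fun a => MulAction.exists_smul_eq SL(2, ℝ) a b
  choose γ hγ using htr
  let U : ℍ → Set ℍ := fun a => (fun z => γ a • z) ⁻¹' interior B
  have hU : ∀ a, IsOpen (U a) := fun a => isOpen_interior.preimage (continuous_const_smul (γ a))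
  have hcov : closure A ⊆ ⋃ a, U a := fun a _ => Set.mem_iUnion.2 ⟨a, by
    simp only [U, Set.mem_preimage, hγ]; exact hb⟩
  obtain ⟨s, hs⟩ := hA.isCompact_closure.elim_finite_subcover U hU hcov
  have hex : ∀ a : A, ∃ c ∈ s, γ c • (a : ℍ) ∈ B := fun a => by
    have := hs (subset_closure a.2)
    simp only [Set.mem_iUnion, U, Set.mem_preimage] at this
    obtain ⟨c, hc, h⟩ := this
    exact ⟨c, hc, interior_subset h⟩
  choose c hc hcB using hex
  have hcard : s.card ≤ s.card + 1 := Nat.le_succ _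
  refine ⟨s.card, (fun x : ℍ => IsometryEquiv.constSMul (γ x)) '' (s : Set ℍ),
    fun p => (⟨γ (c p.1) • (p.1 : ℍ), hcB p.1⟩, Fin.castLE hcard (s.equivFin ⟨c p.1, hc p.1⟩)),
    s.finite_toSet.image _, ?_, fun p => ⟨_, ⟨c p.1, hc p.1, rfl⟩, rfl⟩⟩
  rintro ⟨x, i⟩ ⟨y, j⟩ h
  simp only [Prod.mk.injEq, Subtype.mk.injEq] at h
  obtain ⟨h1, h2⟩ := h
  have h3 := s.equivFin.injective (Fin.castLE_injective hcard h2)
  have h4 : c x = c y := congrArg Subtype.val h3
  rw [h4] at h1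
  exact Prod.ext (Subtype.ext (smul_left_cancel _ h1)) (Subsingleton.elim _ _)

/-- a finite set of isometries and a fourfold injection give all multiplicities -/
theorem pow_emb {X : Set ℍ} (h : EmbN X X 4 1) (n : ℕ) : EmbN X X (4 ^ n) 1 := by
  induction n with
  | zero => exact ⟨{IsometryEquiv.refl ℍ}, id, Set.finite_singleton _, Function.injective_id,
      fun p => ⟨_, rfl, rfl⟩⟩
  | succ n ih =>
    have h1 := h.mul (4 ^ n)
    rw [one_mul, mul_comm] at h1
    rw [pow_succ]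
    exact h1.trans ih

theorem EmbN.mono {A B : Set ℍ} {m m' n n' : ℕ} (h : EmbN A B m n) (hm : m' ≤ m) (hn : n ≤ n') :
    EmbN A B m' n' := by
  obtain ⟨S, f, hS, hf, hfS⟩ := h
  refine ⟨S, fun p => ((f (p.1, Fin.castLE hm p.2)).1, Fin.castLE hn (f (p.1, Fin.castLE hm p.2)).2),
    hS, ?_, fun p => hfS _⟩
  rintro ⟨a, i⟩ ⟨b, j⟩ h
  simp only [Prod.mk.injEq] at h
  have h1 := hf (Prod.ext h.1 (Fin.castLE_injective hn h.2))
  simp only [Prod.mk.injEq] at h1
  exact Prod.ext h1.1 (Fin.castLE_injective hm h1.2)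

/-- the set `X` is equidecomposable with the set of `base` -/
theorem equi {X Y : Set ℍ} (hY : EmbN Y Y 4 1) (hXb : Bornology.IsBounded X)
    (hXi : (interior X).Nonempty) (hYb : Bornology.IsBounded Y) (hYi : (interior Y).Nonempty) :
    ∃ (S : Set Iso) (h : X ≃ Y), S.Finite ∧ ∀ x, ∃ g ∈ S, (h x : ℍ) = g x := by
  classical
  obtain ⟨n, h1⟩ := cover hXb hYi
  obtain ⟨m, h2⟩ := cover hYb hXi
  have hn : n + 1 ≤ 4 ^ n := Nat.lt_pow_self (by norm_num)
  have hm : m + 1 ≤ 4 ^ m := Nat.lt_pow_self (by norm_num)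
  have h3 : EmbN X Y 1 1 := h1.trans ((pow_emb hY n).mono hn le_rfl)
  have h4 : EmbN Y X 1 1 :=
    EmbN.cancel (Nat.succ_pos m) (((pow_emb hY m).mono hm le_rfl).trans h2)
  obtain ⟨S, f, hS, hf, hfS⟩ := h3
  obtain ⟨T, g, hT, hg, hgT⟩ := h4
  let f' : X → Y := fun x => (f (x, 0)).1
  let g' : Y → X := fun y => (g (y, 0)).1
  have hf' : Function.Injective f' := fun x y h => by
    have := hf (Prod.ext h (Subsingleton.elim _ _))
    exact (Prod.mk.inj this).1
  have hg' : Function.Injective g' := fun x y h => by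
    have := hg (Prod.ext h (Subsingleton.elim _ _))
    exact (Prod.mk.inj this).1
  obtain ⟨h, hb, hR⟩ := Function.Embedding.schroeder_bernstein_of_rel hf' hg'
    (fun x y => ∃ u ∈ S ∪ IsometryEquiv.symm '' T, (y : ℍ) = u x)
    (fun x => by
      obtain ⟨u, hu, hu'⟩ := hfS (x, 0)
      exact ⟨u, .inl hu, hu'⟩)
    (fun y => by
      obtain ⟨u, hu, hu'⟩ := hgT (y, 0)
      refine ⟨u.symm, .inr ⟨u, hu, rfl⟩, ?_⟩
      rw [IsometryEquiv.eq_symm_apply]
      exact hu'.symm)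
  exact ⟨_, Equiv.ofBijective h hb, hS.union (hT.image _), hR⟩

end Pool.Agent.KS6_46.HP
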