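import Pool.Agent.KS6_46.HP.Base

set_option autoImplicit false

open UpperHalfPlane
open scoped MatrixGroups

namespace Pool.Agent.KS6_46.HP

/-- two maps that move points by finitely many isometries compose -/
theorem fam_comp {X Y Z : Set ℍ} {S T : Set Iso} {f : X → Y} {g : Y → Z}
    (hf : ∀ x, ∃ u ∈ S, (f x : ℍ) = u x) (hg : ∀ y, ∃ u ∈ T, (g y : ℍ) = u y) (x : X) :
    ∃ u ∈ mulS S T, (g (f x) : ℍ) = u x := by
  obtain ⟨u, hu, hu'⟩ := hf x
  obtain ⟨v, hv, hv'⟩ := hg (f x)
  exact ⟨_, mem_mulS hu hv, by rw [hv', hu']; rfl⟩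

/-- every bounded set with nonempty interior has a fourfold rank increasing injection -/
theorem base_all {X : Set ℍ} (hXb : Bornology.IsBounded X) (hXi : (interior X).Nonempty) :
    ∃ (C : X → Fin 2 × Bool → X) (d : X → ℕ) (S : Set Iso),
    S.Finite ∧ (∀ x s, d x < d (C x s)) ∧
    (∀ x s y t, C x s = C y t → x = y ∧ s = t) ∧
    ∀ s x, ∃ g ∈ S, (C x s : ℍ) = g x := by
  obtain ⟨Y, C, d, S, hS, hYb, hYi, hd, hC, hCS⟩ := base
  have hY : EmbN Y Y 4 1 := by
    refine ⟨S, fun p => (C p.1 ((Fintype.equivFinOfCardEq (α := Fin 2 × Bool) (n := 4)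
      (by simp)).symm p.2), 0), hS, ?_, fun p => hCS _ _⟩
    rintro ⟨a, i⟩ ⟨b, j⟩ h
    obtain ⟨h1, h2⟩ := hC _ _ _ _ (Prod.mk.inj h).1
    exact Prod.ext h1 ((Equiv.injective _) h2)
  obtain ⟨T, h, hT, hh⟩ := equi hY hXb hXi hYb hYi
  have hh' : ∀ y : Y, ∃ g ∈ IsometryEquiv.symm '' T, (h.symm y : ℍ) = g y := fun y => by
    obtain ⟨g, hg, hg'⟩ := hh (h.symm y)
    rw [Equiv.apply_symm_apply] at hg'
    exact ⟨g.symm, ⟨g, hg, rfl⟩, by rw [IsometryEquiv.eq_symm_apply, hg']⟩
  refine ⟨fun x s => h.symm (C (h x) s), fun x => d (h x),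
    mulS (mulS T S) (IsometryEquiv.symm '' T), mulS_finite (mulS_finite hT hS) (hT.image _),
    fun x s => ?_, fun x s y t hxy => ?_, fun s x => ?_⟩
  · show d (h x) < d (h (h.symm (C (h x) s)))
    rw [Equiv.apply_symm_apply]; exact hd _ _
  · obtain ⟨h1, h2⟩ := hC _ _ _ _ (h.symm.injective hxy)
    exact ⟨h.injective h1, h2⟩
  · exact fam_comp (f := fun x => C (h x) s)
      (fam_comp (g := fun y => C y s) hh (fun y => hCS y s)) hh' x

section
variable {X ι : Type}
open H.MP_e721cf_gt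

/-- a rank increasing injective system of children indexed by `ι × Bool` gives a free group with
basis `ι` that acts freely; the generator `i` only uses the children `(i, true)` and `(i, false)`
(the argument of the library lemma `free_act`, which does not record the last point) -/
theorem free_act (c : X → ι × Bool → X) (d : X → ℕ) (hd : ∀ x s, d x < d (c x s))
    (hc : ∀ x s y t, c x s = c y t → x = y ∧ s = t) :
    ∃ φ : ι → Equiv.Perm X, (∀ i x, φ i x = c x (i, true) ∨ x = c (φ i x) (i, false)) ∧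
      ∀ (w : FreeGroup ι) x, FreeGroup.lift φ w x = x → w = 1 := by
  classical
  have wf : WellFounded (InvImage (· < ·) d) := InvImage.wf d wellFounded_lt
  obtain ⟨U, hU⟩ : ∃ U : X → ι × Bool → Prop,
      ∀ x s, U x s ↔ ¬ ∃ y, x = c y (iv s) ∧ U y (iv s) := by
    refine ⟨wf.fix fun x ih s => ¬ ∃ (y : X) (h : d y < d x), x = c y (iv s) ∧ ih y h (iv s),
      fun x s => ?_⟩
    rw [wf.fix_eq]
    exact not_congr ⟨fun ⟨y, _, h⟩ => ⟨y, h⟩, fun ⟨y, h⟩ => ⟨y, h.1 ▸ hd y _, h⟩⟩
  obtain ⟨ad, had⟩ : ∃ ad : X → FreeGroup ι, ∀ y s, U y s → ad (c y s) = gen s * ad y := by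
    let F : ∀ x, (∀ y, InvImage (· < ·) d y x → FreeGroup ι) → FreeGroup ι := fun x ih =>
      if h : ∃ p : X × ι × Bool, x = c p.1 p.2 then
        (if U h.choose.1 h.choose.2 then gen h.choose.2 * ih h.choose.1
          (lt_of_lt_of_eq (hd _ _) (congrArg d h.choose_spec.symm)) else 1) else 1
    refine ⟨wf.fix F, fun y s h => ?_⟩
    rw [wf.fix_eq]
    have h1 : ∃ p : X × ι × Bool, c y s = c p.1 p.2 := ⟨(y, s), rfl⟩
    obtain ⟨e1, e2⟩ := hc _ _ _ _ h1.choose_spec
    simp only [F, dif_pos h1, ← e1, ← e2, if_pos h]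
    congr 2
    exact e1.symm
  obtain ⟨act, h1, h2⟩ : ∃ act : ι × Bool → X → X, (∀ s x, U x s → act s x = c x s) ∧
      ∀ s x, ¬ U x s → x = c (act s x) (iv s) ∧ U (act s x) (iv s) := by
    refine ⟨fun s x => if h : U x s then c x s else (not_not.1 ((hU x s).not.1 h)).choose,
      fun s x h => dif_pos h, fun s x h => ?_⟩
    simp only [dif_neg h]
    exact (not_not.1 ((hU x s).not.1 h)).choose_spec
  have h3 : ∀ s x, act (iv s) (act s x) = x := fun s x => by
    by_cases h : U x s
    · have : ¬ U (c x s) (iv s) := fun h' => (hU _ _).1 h' ⟨x, by rw [iv_iv], by rwa [iv_iv]⟩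
      rw [h1 s x h]
      have h4 := (h2 _ _ this).1
      rw [iv_iv] at h4
      exact (hc _ _ _ _ h4).1.symm
    · rw [h1 _ _ (h2 s x h).2]; exact (h2 s x h).1.symm
  have h4 : ∀ s x, ad (act s x) = gen s * ad x := fun s x => by
    by_cases h : U x s
    · rw [h1 s x h, had _ _ h]
    · conv_rhs => rw [(h2 s x h).1, had _ _ (h2 s x h).2, ← mul_assoc, gen_iv, one_mul]
  let φ : ι → Equiv.Perm X := fun i =>
    ⟨act (i, true), act (i, false), h3 (i, true), h3 (i, false)⟩
  refine ⟨φ, fun i x => ?_, fun w x hx => ?_⟩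
  · by_cases h : U x (i, true)
    · exact .inl (h1 _ x h)
    · exact .inr (h2 _ x h).1
  · have : ∀ x, ad (FreeGroup.lift φ w x) = w * ad x := by
      clear hx
      induction w using FreeGroup.induction_on with
      | C1 => simp
      | of i => intro x; rw [FreeGroup.lift_apply_of]; exact h4 (i, true) x
      | inv_of i _ => intro x; rw [map_inv, FreeGroup.lift_apply_of]; exact h4 (i, false) x
      | mul u v hu hv => intro x; rw [map_mul, Equiv.Perm.mul_apply, hu, hv, mul_assoc]
    have h5 := this x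
    rw [hx] at h5
    simpa using h5
end

/-- children indexed by `ℕ × Bool` -/
theorem children {X : Type} (C : X → Fin 2 × Bool → X) (d : X → ℕ) (hd : ∀ x s, d x < d (C x s))
    (hC : ∀ x s y t, C x s = C y t → x = y ∧ s = t) :
    let c : X → ℕ × Bool → X := fun x s =>
      C ((fun z => C z (0, false))^[s.1] (C x (0, true))) (1, s.2)
    (∀ x s, d x < d (c x s)) ∧ ∀ x s y t, c x s = c y t → x = y ∧ s = t := by
  intro c
  have h0 : ∀ (n : ℕ) x, d x ≤ d ((fun z => C z (0, false))^[n] x) := fun n => by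
    induction n with
    | zero => intro x; simp
    | succ n ih =>
      intro x
      rw [Function.iterate_succ_apply]
      exact (hd _ _).le.trans (ih _)
  have key : ∀ (n m : ℕ) x y, (fun z => C z (0, false))^[n] (C x (0, true)) =
      (fun z => C z (0, false))^[m] (C y (0, true)) → x = y ∧ n = m := by
    intro n
    induction n with
    | zero =>
      intro m x y h
      cases m with
      | zero => exact ⟨(hC _ _ _ _ h).1, rfl⟩
      | succ m =>
        rw [Function.iterate_succ_apply'] at h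
        have := (hC _ _ _ _ h).2
        simp at this
    | succ n ih =>
      intro m x y h
      cases m with
      | zero =>
        rw [Function.iterate_succ_apply'] at h
        have := (hC _ _ _ _ h).2
        simp at this
      | succ m =>
        rw [Function.iterate_succ_apply', Function.iterate_succ_apply'] at h
        obtain ⟨h1, h2⟩ := ih m x y (hC _ _ _ _ h).1
        exact ⟨h1, by rw [h2]⟩
  refine ⟨fun x s => ?_, fun x s y t h => ?_⟩
  · exact (hd _ _).trans_le ((h0 _ _).trans (hd _ _).le)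
  · obtain ⟨h1, h2⟩ := hC _ _ _ _ h
    obtain ⟨h3, h4⟩ := key _ _ _ _ h1
    exact ⟨h3, Prod.ext h4 (Prod.mk.inj h2).2⟩

/-- every bounded set with nonempty interior carries a free group of countably infinite rank of
piecewise isometries that acts freely -/
theorem free_all {X : Set ℍ} (hXb : Bornology.IsBounded X) (hXi : (interior X).Nonempty) :
    ∃ φ : ℕ → Equiv.Perm X, (∀ n, ∃ S : Set Iso, S.Finite ∧ ∀ x, ∃ g ∈ S, (φ n x : ℍ) = g x) ∧
      ∀ (w : FreeGroup ℕ) x, FreeGroup.lift φ w x = x → w = 1 := by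
  obtain ⟨C, d, S, hS, hd, hC, hCS⟩ := base_all hXb hXi
  obtain ⟨hd', hC'⟩ := children C d hd hC
  obtain ⟨φ, h1, h2⟩ := free_act _ d hd' hC'
  refine ⟨φ, fun n => ?_, h2⟩
  have hit : ∀ n : ℕ, ∃ T : Set Iso, T.Finite ∧
      ∀ x : X, ∃ g ∈ T, (((fun z => C z (0, false))^[n] x : X) : ℍ) = g x := fun n => by
    induction n with
    | zero => exact ⟨{IsometryEquiv.refl ℍ}, Set.finite_singleton _, fun x => ⟨_, rfl, rfl⟩⟩
    | succ n ih =>
      obtain ⟨T, hT, h⟩ := ih
      refine ⟨mulS T S, mulS_finite hT hS, fun x => ?_⟩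
      rw [Function.iterate_succ_apply']
      exact fam_comp (g := fun z => C z (0, false)) h (hCS _) x
  obtain ⟨T, hT, h⟩ := hit n
  have hc : ∀ b, ∀ x : X, ∃ g ∈ mulS (mulS S T) S,
      ((C ((fun z => C z (0, false))^[n] (C x (0, true))) (1, b) : X) : ℍ) = g x := fun b =>
    fam_comp (g := fun z => C z (1, b)) (fam_comp (f := fun x => C x (0, true)) (hCS _) h) (hCS _)
  refine ⟨mulS (mulS S T) S ∪ IsometryEquiv.symm '' mulS (mulS S T) S,
    (mulS_finite (mulS_finite hS hT) hS).union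
      ((mulS_finite (mulS_finite hS hT) hS).image _), fun x => ?_⟩
  rcases h1 n x with h3 | h3
  · obtain ⟨g, hg, hg'⟩ := hc true x
    exact ⟨g, .inl hg, by rw [h3]; exact hg'⟩
  · obtain ⟨g, hg, hg'⟩ := hc false (φ n x)
    refine ⟨g.symm, .inr ⟨g, hg, rfl⟩, ?_⟩
    rw [IsometryEquiv.eq_symm_apply, ← hg']
    exact (congrArg Subtype.val h3).symm

end Pool.Agent.KS6_46.HP
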