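import Pool.Agent.KS6_46.HP.Free

set_option autoImplicit false

open UpperHalfPlane
open scoped MatrixGroups

namespace Pool.Agent.KS6_46.HP

/-- the permutation `f` of `X` moves points by isometries from a finite set -/
def Fam {X : Set ℍ} (f : Equiv.Perm X) : Prop :=
  ∃ S : Set Iso, S.Finite ∧ ∀ x, ∃ g ∈ S, (f x : ℍ) = g x

theorem Fam.one {X : Set ℍ} : Fam (1 : Equiv.Perm X) :=
  ⟨{IsometryEquiv.refl ℍ}, Set.finite_singleton _, fun _ => ⟨_, rfl, rfl⟩⟩

theorem Fam.mul {X : Set ℍ} {f g : Equiv.Perm X} (hf : Fam f) (hg : Fam g) : Fam (f * g) := by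
  obtain ⟨S, hS, h⟩ := hf
  obtain ⟨T, hT, h'⟩ := hg
  exact ⟨mulS T S, mulS_finite hT hS, fun x => fam_comp h' h x⟩

theorem Fam.inv {X : Set ℍ} {f : Equiv.Perm X} (hf : Fam f) : Fam f⁻¹ := by
  obtain ⟨S, hS, h⟩ := hf
  refine ⟨IsometryEquiv.symm '' S, hS.image _, fun x => ?_⟩
  obtain ⟨g, hg, hg'⟩ := h (f⁻¹ x)
  have e : f (f⁻¹ x) = x := f.apply_symm_apply x
  rw [e] at hg'
  exact ⟨g.symm, ⟨g, hg, rfl⟩, by rw [IsometryEquiv.eq_symm_apply, hg']⟩

theorem Fam.lift {X : Set ℍ} {φ : ℕ → Equiv.Perm X} (h : ∀ n, Fam (φ n)) (w : FreeGroup ℕ) :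
    Fam (FreeGroup.lift φ w) := by
  induction w using FreeGroup.induction_on with
  | C1 => rw [map_one]; exact Fam.one
  | of i => rw [FreeGroup.lift_apply_of]; exact h i
  | inv_of i _ => rw [map_inv, FreeGroup.lift_apply_of]; exact (h i).inv
  | mul u v hu hv => rw [map_mul]; exact hu.mul hv

/-- Schröder–Bernstein for piecewise isometric injections -/
theorem sb {A B : Set ℍ} {m n : ℕ} (h1 : EmbN A B m n) (h2 : EmbN B A n m) :
    ∃ (S : Set Iso) (h : A × Fin m ≃ B × Fin n), S.Finite ∧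
      (∀ p, ∃ g ∈ S, ((h p).1 : ℍ) = g p.1) ∧ ∀ p, ∃ g ∈ S, ((h.symm p).1 : ℍ) = g p.1 := by
  obtain ⟨S, f, hS, hf, hfS⟩ := h1
  obtain ⟨T, g, hT, hg, hgT⟩ := h2
  obtain ⟨h, hb, hR⟩ := Function.Embedding.schroeder_bernstein_of_rel hf hg
    (fun x y => ∃ u ∈ S ∪ IsometryEquiv.symm '' T, (y.1 : ℍ) = u x.1)
    (fun x => by
      obtain ⟨u, hu, hu'⟩ := hfS x
      exact ⟨u, .inl hu, hu'⟩)
    (fun y => by
      obtain ⟨u, hu, hu'⟩ := hgT y
      refine ⟨u.symm, .inr ⟨u, hu, rfl⟩, ?_⟩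
      rw [IsometryEquiv.eq_symm_apply]
      exact hu'.symm)
  refine ⟨(S ∪ IsometryEquiv.symm '' T) ∪ IsometryEquiv.symm '' (S ∪ IsometryEquiv.symm '' T),
    Equiv.ofBijective h hb, (hS.union (hT.image _)).union ((hS.union (hT.image _)).image _),
    fun p => ?_, fun p => ?_⟩
  · obtain ⟨u, hu, hu'⟩ := hR p
    exact ⟨u, .inl hu, hu'⟩
  · obtain ⟨u, hu, hu'⟩ := hR ((Equiv.ofBijective h hb).symm p)
    have e : h ((Equiv.ofBijective h hb).symm p) = p := (Equiv.ofBijective h hb).apply_symm_apply p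
    rw [e] at hu'
    exact ⟨u.symm, .inr ⟨u, hu, rfl⟩, by rw [IsometryEquiv.eq_symm_apply, hu']⟩

/-- `n ≥ 1` copies of `X` are equidecomposable with `X` -/
theorem copies {X : Set ℍ} (hXb : Bornology.IsBounded X) (hXi : (interior X).Nonempty) (n : ℕ) :
    ∃ (S : Set Iso) (h : X × Fin (n + 1) ≃ X), S.Finite ∧
      (∀ p, ∃ g ∈ S, (h p : ℍ) = g p.1) ∧ ∀ x, ∃ g ∈ S, ((h.symm x).1 : ℍ) = g x := by
  obtain ⟨C, d, S, hS, hd, hC, hCS⟩ := base_all hXb hXi
  have hX : EmbN X X 4 1 := by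
    refine ⟨S, fun p => (C p.1 ((Fintype.equivFinOfCardEq (α := Fin 2 × Bool) (n := 4)
      (by simp)).symm p.2), 0), hS, ?_, fun p => hCS _ _⟩
    rintro ⟨a, i⟩ ⟨b, j⟩ h
    obtain ⟨h1, h2⟩ := hC _ _ _ _ (Prod.mk.inj h).1
    exact Prod.ext h1 ((Equiv.injective _) h2)
  have h1 : EmbN X X (n + 1) 1 := (pow_emb hX n).mono (Nat.lt_pow_self (by norm_num)) le_rfl
  have h2 : EmbN X X 1 (n + 1) := by
    refine ⟨{IsometryEquiv.refl ℍ}, fun p => (p.1, 0), Set.finite_singleton _, ?_,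
      fun p => ⟨_, rfl, rfl⟩⟩
    rintro ⟨a, i⟩ ⟨b, j⟩ h
    exact Prod.ext (Prod.mk.inj h).1 (Subsingleton.elim _ _)
  obtain ⟨T, h, hT, hh, hh'⟩ := sb h1 h2
  exact ⟨T, h.trans (Equiv.prodUnique X (Fin 1)), hT, fun p => hh p, fun x => hh' (x, 0)⟩

section
variable {G : Type} [Group G] (H : Subgroup G) {Y : Type} (θ : H →* Equiv.Perm Y)

/-- representative of a coset -/
noncomputable def rp (q : G ⧸ H) : G := q.out

theorem rp_mk (q : G ⧸ H) : (QuotientGroup.mk (rp H q) : G ⧸ H) = q := QuotientGroup.out_eq' q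

theorem coc_mem (g : G) (q : G ⧸ H) : (rp H (g • q))⁻¹ * (g * rp H q) ∈ H := by
  rw [← QuotientGroup.eq, rp_mk]
  conv_lhs => rw [← rp_mk H q]
  rfl

/-- the cocycle of the induced action -/
noncomputable def coc (g : G) (q : G ⧸ H) : H := ⟨(rp H (g • q))⁻¹ * (g * rp H q), coc_mem H g q⟩

theorem coc_one (q : G ⧸ H) : coc H 1 q = 1 := by
  apply Subtype.ext
  simp [coc]

theorem coc_mul (g h : G) (q : G ⧸ H) : coc H (g * h) q = coc H g (h • q) * coc H h q := by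
  apply Subtype.ext
  simp only [coc, Subgroup.coe_mul, mul_smul]
  group

/-- the induced action -/
noncomputable def ind : G →* Equiv.Perm (Y × (G ⧸ H)) where
  toFun g :=
    { toFun := fun p => (θ (coc H g p.2) p.1, g • p.2)
      invFun := fun p => (θ (coc H g⁻¹ p.2) p.1, g⁻¹ • p.2)
      left_inv := fun p => by
        have h := coc_mul H g⁻¹ g p.2
        rw [inv_mul_cancel, coc_one] at h
        ext
        · simp only
          rw [← Equiv.Perm.mul_apply, ← map_mul, ← h, map_one, Equiv.Perm.one_apply]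
        · simp
      right_inv := fun p => by
        have h := coc_mul H g g⁻¹ p.2
        rw [mul_inv_cancel, coc_one] at h
        ext
        · simp only
          rw [← Equiv.Perm.mul_apply, ← map_mul, ← h, map_one, Equiv.Perm.one_apply]
        · simp }
  map_one' := by
    ext p
    · simp [coc_one]
    · simp
  map_mul' g h := by
    ext p
    · simp [coc_mul, map_mul]
    · simp [mul_smul]

theorem ind_apply (g : G) (p : Y × (G ⧸ H)) : ind H θ g p = (θ (coc H g p.2) p.1, g • p.2) := rfl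

theorem ind_free (hθ : ∀ h y, θ h y = y → h = 1) (g : G) (p : Y × (G ⧸ H))
    (hp : ind H θ g p = p) : g = 1 := by
  rw [ind_apply] at hp
  obtain ⟨y, q⟩ := p
  obtain ⟨h1, h2⟩ := Prod.mk.inj hp
  simp only at h1 h2
  have h3 := congrArg Subtype.val (hθ _ _ h1)
  simp only [coc, h2, Subgroup.coe_one] at h3
  have : g * rp H q = rp H q := by
    rw [inv_mul_eq_one] at h3
    exact h3.symm
  simpa using this

end

end Pool.Agent.KS6_46.HP
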